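import Pool.Agent.K4H8.DP.Up
import Pool.Agent.K4H8.DP.Low
import Pool.Agent.Y843.AC.GoldPr
import Pool.Agent.R460.GS.Conv

/-!
# Goldbach's problem with a sparse set of primes deleted

How many even numbers lose their partitions into two distinct primes if `ρ X / log X` of the primes up to `2 X`
are deleted? At most `C (ρ log X + X exp (- exp (c / ρ)))`, and this is sharp up to the constants for all
`ρ ≥ C / log X`: there is a sudden change at `ρ = 1 / log log X`, from about `log X` to more than `X ^ (1 - ε)`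
numbers. The upper bound holds in the residue classes of all moduli.
-/

set_option autoImplicit false

namespace Pool.Agent.Results.MP_7b7e48_nt.DeletedPrimes

open Finset
open Pool.Agent.K4H8.DP

/-- The set of the primes. -/
def primes : Set ℕ := {p | p.Prime}

open Classical in
/-- The number of the partitions `n = p + q` of `n` into two distinct elements `p < q` of `A`. -/
noncomputable def parts (A : Set ℕ) (n : ℕ) : ℕ :=
  ((range n).filter (fun p => p ∈ A ∧ n - p ∈ A ∧ p < n - p)).card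

/-- The expected order `n ^ 2 / (φ(n) log ^ 2 n)` of the number of the partitions of an even number `n` into two
distinct primes. -/
noncomputable def order (n : ℕ) : ℝ := (n : ℝ) ^ 2 / (n.totient * Real.log n ^ 2)

open Classical in
/-- The even numbers `n` of `(X, 2 X]`, congruent to `a` modulo `q`, with at least `δ order n` partitions into two
distinct primes, of which at least the proportion `η` is lost if the primes of `R` are deleted. (For `η = 1` this
means that all partitions are lost; for `q = 1` the congruence is void.) -/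
noncomputable def lost (δ η : ℝ) (R : Finset ℕ) (X q : ℕ) (a : ℤ) : Finset ℕ :=
  (Ioc X (2 * X)).filter (fun n : ℕ => 2 ∣ n ∧ (n : ℤ) ≡ a [ZMOD q] ∧ δ * order n ≤ parts primes n ∧
    η * parts primes n ≤ (parts primes n : ℝ) - parts (primes \ (R : Set ℕ)) n)

lemma mem_lost {δ η : ℝ} {R : Finset ℕ} {X q n : ℕ} {a : ℤ} : n ∈ lost δ η R X q a ↔ (X < n ∧ n ≤ 2 * X) ∧
    2 ∣ n ∧ (n : ℤ) ≡ a [ZMOD q] ∧ δ * order n ≤ parts primes n ∧
    η * parts primes n ≤ (parts primes n : ℝ) - parts (primes \ (R : Set ℕ)) n := by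
  classical
  unfold lost
  rw [mem_filter, mem_Ioc]

/-- the set counted by `parts` -/
lemma parts_set (A : Set ℕ) (n : ℕ) : ∃ S : Finset ℕ, S.card = parts A n ∧
    ∀ p, p ∈ S ↔ p < n ∧ p ∈ A ∧ n - p ∈ A ∧ p < n - p := by
  classical
  exact ⟨(range n).filter (fun p => p ∈ A ∧ n - p ∈ A ∧ p < n - p), rfl,
    fun p => by rw [mem_filter, mem_range]⟩

/-- the lost partitions contain many elements of `R` -/
lemma lost_hit (R : Finset ℕ) (n : ℕ) :
    (parts primes n : ℝ) - parts (primes \ (R : Set ℕ)) n ≤ ((R ∩ TT n).card : ℝ) := by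
  classical
  obtain ⟨S, e1, hS⟩ := parts_set primes n
  obtain ⟨S', e2, hS'⟩ := parts_set (primes \ (R : Set ℕ)) n
  have h1 : S.card ≤ (S \ S').card + S'.card := card_le_card_sdiff_add_card
  have h2 : (S \ S').card ≤ (R ∩ TT n).card := by
    apply card_le_card_of_injOn (fun p => if p ∈ R then p else n - p)
    · intro p hp
      rw [mem_coe, mem_sdiff, hS, hS'] at hp
      obtain ⟨⟨h3, h4, h5, h6⟩, h7⟩ := hp
      rw [mem_coe, mem_inter]
      dsimp only
      split_ifs with h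
      · exact ⟨h, mem_TT.2 ⟨h4, h5⟩⟩
      · refine ⟨?_, mem_TT.2 ⟨h5, ?_⟩⟩
        · by_contra h8
          exact h7 ⟨h3, ⟨h4, fun h9 => h (mem_coe.1 h9)⟩, ⟨h5, fun h9 => h8 (mem_coe.1 h9)⟩, h6⟩
        · rw [show n - (n - p) = p by omega]
          exact h4
    · intro p hp q hq hpq
      rw [mem_coe, mem_sdiff, hS] at hp hq
      obtain ⟨⟨h3, h4, h5, h6⟩, -⟩ := hp
      obtain ⟨⟨h3', h4', h5', h6'⟩, -⟩ := hq
      dsimp only at hpq
      split_ifs at hpq <;> omega
  rw [← e1, ← e2]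
  have h3 : (S.card : ℝ) ≤ (S \ S').card + S'.card := by exact_mod_cast h1
  have h4 : ((S \ S').card : ℝ) ≤ (R ∩ TT n).card := by exact_mod_cast h2
  linarith

lemma order_eq (n : ℕ) (hn : 0 < n) : order n = n / Real.log n ^ 2 * hh n := by
  unfold order
  rw [hh_eq n hn]
  ring

lemma order_low {X n : ℕ} (hX : 2 ≤ X) (h1 : X < n) (h2 : n ≤ 2 * X) :
    1 / 4 * (X / Real.log X ^ 2 * hh n) ≤ order n := by
  have hXr : (2 : ℝ) ≤ X := by exact_mod_cast hX
  have hXn : (X : ℝ) ≤ n := by exact_mod_cast h1.le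
  have hnX : (n : ℝ) ≤ 2 * X := by exact_mod_cast h2
  have hlX : 0 < Real.log X := Real.log_pos (by linarith)
  have hln : Real.log n ≤ 2 * Real.log X := by
    calc Real.log n ≤ Real.log (X * X) := Real.log_le_log (by linarith) (by nlinarith)
      _ = 2 * Real.log X := by rw [Real.log_mul (by linarith) (by linarith)]; ring
  have hln0 : 0 < Real.log n := Real.log_pos (by linarith)
  rw [order_eq n (by omega)]
  have hhn := one_le_hh n
  have h3 : 1 / 4 * (X / Real.log X ^ 2) ≤ n / Real.log n ^ 2 := by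
    rw [one_div_mul_eq_div, div_div, div_le_div_iff₀ (by positivity) (by positivity)]
    have h4 : Real.log n ^ 2 ≤ Real.log X ^ 2 * 4 := by nlinarith
    calc (X : ℝ) * Real.log n ^ 2 ≤ n * (Real.log X ^ 2 * 4) := by gcongr
      _ = _ := by ring
  calc 1 / 4 * (X / Real.log X ^ 2 * hh n) = 1 / 4 * (X / Real.log X ^ 2) * hh n := by ring
    _ ≤ _ := mul_le_mul_of_nonneg_right h3 (by linarith)

/-- Mertens -/
lemma mert_ex : ∃ a b : ℝ, 0 < a ∧ 0 < b ∧ Mert a b := by
  obtain ⟨c, C, hc, hC, h⟩ := Pool.Agent.Y843.HG.V1_bounds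
  refine ⟨1 / C, 1 / c, by positivity, by positivity, fun y hy => ?_⟩
  obtain ⟨h1, h2⟩ := h y hy
  have e : Pool.Agent.Y843.HG.V1 y = (W1 y)⁻¹ := by
    rw [← W1_prod]
    rfl
  rw [e] at h1 h2
  have hl : 0 < Real.log y := Real.log_pos (by exact_mod_cast (by omega : 1 < y))
  have hW := W1_pos y
  constructor
  · rw [one_div_mul_eq_div, div_le_iff₀ hC]
    rw [inv_eq_one_div, div_le_div_iff₀ hW hl] at h2
    linarith
  · rw [one_div_mul_eq_div, le_div_iff₀ hc]
    rw [inv_eq_one_div, div_le_div_iff₀ hl hW] at h1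
    linarith

/-- (1) -/
theorem upper (δ η : ℝ) (hδ : 0 < δ) (hη : 0 < η) : ∃ c C : ℝ, 0 < c ∧ 0 < C ∧ ∃ X₀ : ℕ, ∀ X : ℕ, X₀ ≤ X →
    ∀ q : ℕ, 1 ≤ q → q ≤ X → ∀ a : ℤ, ∀ ρ : ℝ, 0 < ρ → ∀ R : Finset ℕ, (R.card : ℝ) ≤ ρ * (X / Real.log X) →
      ((lost δ η R X q a).card : ℝ) ≤
        C * (ρ * Real.log X + X / q * Real.exp (- Real.exp (c / (q / q.totient * ρ)))) := by
  classical
  obtain ⟨a₀, b, ha, hb, hM⟩ := mert_ex
  obtain ⟨C₁, hC₁, X₁, hS⟩ := sb Pool.Agent.Y843.AC.upa_all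
  obtain ⟨K, hK, X₂, hcnt⟩ := cnt_bounds ha hM hC₁ hS
  obtain ⟨κ, hκ⟩ : ∃ κ : ℝ, κ = η * δ * (1 / 4) := ⟨_, rfl⟩
  have hκ0 : 0 < κ := by rw [hκ]; positivity
  have hexp := Real.exp_pos 1
  have hexp2 := Real.exp_pos 2
  refine ⟨κ ^ 2 / (16 * (K * Real.exp 1 * b)), 2 * K / κ ^ 2 + 4 * Real.exp 2, by positivity, by positivity,
    max X₂ 3, ?_⟩
  intro X hX q hq hqX a ρ hρ R hR
  have hX3 : 3 ≤ X := (le_max_right _ _).trans hX
  have hXr : (3 : ℝ) ≤ X := by exact_mod_cast hX3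
  have hq0 : (0 : ℝ) < q := by exact_mod_cast hq
  obtain ⟨hc3, hc2, -⟩ := hcnt X ((le_max_left _ _).trans hX)
  have hL : 0 < Real.log X := Real.log_pos (by linarith)
  rw [← hh_eq q hq]
  have hhq := one_le_hh q
  have hhq0 : 0 < hh q := by linarith
  have hE : 0 < X / q * Real.exp (- Real.exp (κ ^ 2 / (16 * (K * Real.exp 1 * b)) / (hh q * ρ))) := by positivity
  rcases Nat.eq_zero_or_pos (lost δ η R X q a).card with h0 | h0
  · rw [h0, Nat.cast_zero]
    positivity
  · have hN : ∀ n ∈ lost δ η R X q a, X < n ∧ n ≤ 2 * X := fun n hn => (mem_lost.1 hn).1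
    have hcl : ∀ n ∈ lost δ η R X q a, ∀ n' ∈ lost δ η R X q a, n % q = n' % q := by
      intro n hn n' hn'
      have h1 := (mem_lost.1 hn).2.2.1
      have h2 := (mem_lost.1 hn').2.2.1
      have h3 : (n : ℤ) ≡ (n' : ℤ) [ZMOD q] := h1.trans h2.symm
      exact Int.natCast_modEq_iff.1 h3
    have hcc := card_class hq hN hcl h0
    have hccr : ((lost δ η R X q a).card : ℝ) ≤ (X : ℝ) / q + 1 := by
      have h1 : ((lost δ η R X q a).card : ℝ) ≤ ((X / q : ℕ) : ℝ) + 1 := by exact_mod_cast hcc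
      have h2 : ((X / q : ℕ) : ℝ) ≤ (X : ℝ) / q := Nat.cast_div_le
      linarith
    have h1 := main_ineq (κ := κ) hb (fun K hK => (hM K hK).2) hK hL hκ0 (by omega) hq hN hcl h0 hc3 hc2 hR (by
      intro n hn
      obtain ⟨h2, h3, -, h4, h5⟩ := mem_lost.1 hn
      have h6 := lost_hit R n
      have h7 := order_low (by omega) h2.1 h2.2
      have hp : (0 : ℝ) ≤ parts primes n := Nat.cast_nonneg _
      calc κ * (X / Real.log X ^ 2 * hh n) = η * (δ * (1 / 4 * (X / Real.log X ^ 2 * hh n))) := by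
            rw [hκ]; ring
        _ ≤ η * (δ * order n) := by gcongr
        _ ≤ η * parts primes n := mul_le_mul_of_nonneg_left h4 hη.le
        _ ≤ _ := h5.trans h6)
    have hM0 : (0 : ℝ) < (lost δ η R X q a).card := by exact_mod_cast h0
    have hXq0 : 0 < (X : ℝ) / q := by positivity
    have h2 := solve_ineq (κ := κ ^ 2) (C := K) (C' := K * (4 * Real.exp 1 * b * hh q))
      (X := 2 * ((X : ℝ) / q + 1)) (by positivity) hK (by positivity) hρ hM0 (by positivity) (by linarith) hL.le h1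
    refine h2.trans ?_
    have e1 : κ ^ 2 / (4 * (K * (4 * Real.exp 1 * b * hh q))) / ρ =
        κ ^ 2 / (16 * (K * Real.exp 1 * b)) / (hh q * ρ) := by
      field_simp
      norm_num
    rw [e1]
    have h3 : 0 < 2 * K / κ ^ 2 := by positivity
    have h5 : 0 < ρ * Real.log X := by positivity
    have h6 : 2 * ((X : ℝ) / q + 1) ≤ 4 * (X / q) := by
      have : 1 ≤ (X : ℝ) / q := by
        rw [le_div_iff₀ hq0, one_mul]
        exact_mod_cast hqX
      linarith
    obtain ⟨Ez, hEz⟩ : ∃ Ez, Ez = Real.exp (- Real.exp (κ ^ 2 / (16 * (K * Real.exp 1 * b)) / (hh q * ρ))) :=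
      ⟨_, rfl⟩
    rw [← hEz] at hE ⊢
    have hEz0 : 0 < Ez := by rw [hEz]; exact Real.exp_pos _
    have h7 : Real.exp 2 * (2 * ((X : ℝ) / q + 1) * Ez) ≤ 4 * Real.exp 2 * (X / q * Ez) := by
      calc Real.exp 2 * (2 * ((X : ℝ) / q + 1) * Ez) ≤ Real.exp 2 * (4 * (X / q) * Ez) := by gcongr
        _ = _ := by ring
    nlinarith [mul_pos h3 hE, mul_pos hexp2 h5]

/-- windows give partitions into distinct primes -/
lemma good_of_win : ∃ n₀ : ℕ, ∀ n : ℕ, n₀ ≤ n → 2 ∣ n → Pool.Agent.R460.GS.WinL 1 n →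
    1 / 120 * order n ≤ parts primes n := by
  classical
  obtain ⟨x₀, hx₀⟩ := Filter.eventually_atTop.1 (Real.tendsto_log_atTop.eventually_ge_atTop 4)
  refine ⟨max ⌈x₀⌉₊ 6, fun n hn h2 hW => ?_⟩
  have hn6 : 6 ≤ n := (le_max_right _ _).trans hn
  have hnr : (6 : ℝ) ≤ n := by exact_mod_cast hn6
  have hl := hx₀ n ((Nat.le_ceil _).trans (by exact_mod_cast (le_max_left _ _).trans hn))
  have hl0 : 0 < Real.log n := by linarith
  have hy : (n : ℝ) ≤ 3 * (((n - 1) / 2 : ℕ) : ℝ) := by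
    have : n ≤ 3 * ((n - 1) / 2) := by omega
    exact_mod_cast this
  have h1 := hW 0 ((n - 1) / 2) (by omega) (by omega) (by
    rw [pow_one, Nat.cast_zero, sub_zero, div_le_iff₀ hl0]
    have h0 : (0 : ℝ) ≤ (((n - 1) / 2 : ℕ) : ℝ) := Nat.cast_nonneg _
    nlinarith)
  rw [Nat.cast_zero, sub_zero] at h1
  have h3 : (Pool.Agent.W93.PG.cnt n 0 ((n - 1) / 2) : ℝ) ≤ parts primes n := by
    unfold Pool.Agent.W93.PG.cnt parts
    rw [Nat.cast_le]
    apply card_le_card
    intro p hp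
    rw [mem_filter, mem_Ioc] at hp
    rw [mem_filter, mem_range]
    exact ⟨by omega, hp.2.1, hp.2.2, by omega⟩
  refine le_trans ?_ (h1.trans h3)
  rw [order_eq n (by omega)]
  -- the singular series
  have hs : 1 / 2 * hh n ≤ Pool.Agent.H560R3.GB.sing n := by
    have h2m : 2 ∈ n.primeFactors := Nat.mem_primeFactors.2 ⟨Nat.prime_two, h2, by omega⟩
    have hsp : n.primeFactors = insert 2 (n.primeFactors.filter (fun p => 2 < p)) := by
      ext p
      rw [mem_insert, mem_filter]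
      constructor
      · intro hp
        have := (Nat.prime_of_mem_primeFactors hp).two_le
        by_cases h : p = 2
        · left; exact h
        · right; exact ⟨hp, by omega⟩
      · rintro (rfl | h)
        · exact h2m
        · exact h.1
    unfold hh
    rw [hsp, prod_insert (by simp), Pool.Agent.W93.GB.sing_eq]
    have hC := Pool.Agent.W93.GB.C2_half
    have h7 : ∏ p ∈ n.primeFactors.filter (fun p => 2 < p), (1 - 1 / (p : ℝ))⁻¹ ≤
        ∏ p ∈ n.primeFactors.filter (fun p => 2 < p), Pool.Agent.W93.GB.dv p := by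
      apply prod_le_prod
      · intro p hp
        have h3 : 2 < p := (mem_filter.1 hp).2
        linarith [one_le_fac (show 2 ≤ p by omega)]
      · intro p hp
        have h3 : (3 : ℝ) ≤ p := by exact_mod_cast (mem_filter.1 hp).2
        unfold Pool.Agent.W93.GB.dv
        have h4 : (1 - 1 / (p : ℝ))⁻¹ = (p : ℝ) / (p - 1) := by
          have : (p : ℝ) ≠ 0 := by linarith
          have : (p : ℝ) - 1 ≠ 0 := by linarith
          field_simp
        rw [h4, div_le_div_iff₀ (by linarith) (by linarith)]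
        nlinarith
    have h8 : (0 : ℝ) ≤ ∏ p ∈ n.primeFactors.filter (fun p => 2 < p), (1 - 1 / (p : ℝ))⁻¹ := by
      apply prod_nonneg
      intro p hp
      have h3 : 2 < p := (mem_filter.1 hp).2
      linarith [one_le_fac (show 2 ≤ p by omega)]
    have e2 : (1 - 1 / ((2 : ℕ) : ℝ))⁻¹ = 2 := by norm_num
    rw [e2]
    nlinarith [mul_nonneg (sub_nonneg.2 hC) (h8.trans h7)]
  have hhn := one_le_hh n
  have h5 : 0 ≤ (n : ℝ) / Real.log n ^ 2 := by positivity
  calc 1 / 120 * (n / Real.log n ^ 2 * hh n) = 1 / 20 * (1 / 2 * hh n * (n / 3) / Real.log n ^ 2) := by ring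
    _ ≤ 1 / 20 * (Pool.Agent.H560R3.GB.sing n * (((n - 1) / 2 : ℕ) : ℝ) / Real.log n ^ 2) := by
        apply mul_le_mul_of_nonneg_left _ (by norm_num)
        apply div_le_div_of_nonneg_right _ (by positivity)
        apply mul_le_mul hs (by linarith) (by positivity)
        linarith

/-- the exceptional set in the class `2` -/
lemma few_win : ∃ X₀ : ℕ, Few (Pool.Agent.R460.GS.WinL 1) X₀ := by
  classical
  obtain ⟨x₀, h0⟩ := Pool.Agent.R460.GS.class_few (Pool.Agent.R460.GS.WinL 1) 1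
    ⟨0, fun n _ _ h => h⟩ (1 / 5) (by norm_num) 1 1
  obtain ⟨x₁, h1⟩ := Filter.eventually_atTop.1 (Real.tendsto_log_atTop.eventually_ge_atTop 2)
  refine ⟨max ⌈x₀⌉₊ ⌈x₁⌉₊, fun X hX q hq hqX => ?_⟩
  have e0 : x₀ ≤ X := (Nat.le_ceil _).trans (by exact_mod_cast (le_max_left _ _).trans hX)
  have e1 : x₁ ≤ X := (Nat.le_ceil _).trans (by exact_mod_cast (le_max_right _ _).trans hX)
  obtain ⟨h2, h3⟩ := h0 X e0 q hq (by
    convert hqX using 2
    norm_num) 2 (by
      rw [pow_one]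
      refine le_trans ?_ (h1 X e1)
      have : Int.gcd 2 (q : ℤ) ≤ 2 := Nat.le_of_dvd (by norm_num) (Int.gcd_dvd_natAbs_left 2 (q : ℤ))
      exact_mod_cast this)
  rw [pow_one] at h3
  refine le_trans ?_ h3
  rw [Nat.cast_le, ← Set.ncard_coe_finset]
  apply Set.ncard_le_ncard _ h2
  intro n hn
  rw [mem_coe, mem_filter, mem_Ioc] at hn
  obtain ⟨⟨h4, h5⟩, h6, h7, h8⟩ := hn
  refine ⟨h4, by exact_mod_cast h5, h6, ?_, h8⟩
  exact (Int.natCast_modEq_iff (a := n) (b := 2)).2 h7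

/-- all partitions are lost -/
lemma hit_parts {R : Finset ℕ} {n : ℕ} (h : Hit R n) : parts (primes \ (R : Set ℕ)) n = 0 := by
  obtain ⟨S, e, hS⟩ := parts_set (primes \ (R : Set ℕ)) n
  rw [← e, card_eq_zero, eq_empty_iff_forall_notMem]
  intro p hpS
  obtain ⟨hp, ⟨h1, h2⟩, ⟨h3, h4⟩, h5⟩ := (hS p).1 hpS
  rcases h p (n - p) h1 h3 h5 (by omega) with h6 | h6
  · exact h2 (mem_coe.2 h6)
  · exact h4 (mem_coe.2 h6)

lemma order_nonneg (n : ℕ) : 0 ≤ order n := by
  unfold order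
  positivity

/-- (2) -/
theorem lower : ∃ c C : ℝ, 0 < c ∧ 0 < C ∧ ∃ X₀ : ℕ, ∀ X : ℕ, X₀ ≤ X → ∀ ρ : ℝ, C / Real.log X ≤ ρ → ρ ≤ 1 →
    ∃ R : Finset ℕ, (∀ p ∈ R, p.Prime ∧ p ≤ 2 * X) ∧ (R.card : ℝ) ≤ ρ * (X / Real.log X) ∧
      c * (ρ * Real.log X + X * Real.exp (- Real.exp (C / ρ))) ≤ ((lost (1 / 120) 1 R X 1 0).card : ℝ) := by
  classical
  obtain ⟨a, b, ha, hb, hM⟩ := mert_ex
  obtain ⟨C₁, hC₁, X₁, hS⟩ := sb Pool.Agent.Y843.AC.upa_all
  obtain ⟨K, hK, X₂, hcnt⟩ := cnt_bounds ha hM hC₁ hS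
  obtain ⟨X₃, hF⟩ := few_win
  obtain ⟨n₀, hgood⟩ := good_of_win
  obtain ⟨X₄, hl1⟩ := low1 hF hK (X₁ := X₂) (fun X hX => (hcnt X hX).2.1)
  obtain ⟨X₅, hl2⟩ := low2 hF hK (X₁ := X₂) (fun X hX => (hcnt X hX).2.2)
  obtain ⟨c₁, hc₁⟩ : ∃ c₁ : ℝ, c₁ = 1 / (2 * (480 * K + 1)) := ⟨_, rfl⟩
  have hc₁0 : 0 < c₁ := by rw [hc₁]; positivity
  have hc₁1 : c₁ ≤ 1 / 2 := by
    rw [hc₁, div_le_div_iff₀ (by positivity) (by norm_num)]
    linarith
  obtain ⟨C, hC⟩ : ∃ C : ℝ, C = 2 * (480 * K + 1) + 4 * K + 4 := ⟨_, rfl⟩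
  have hC0 : 0 < C := by rw [hC]; positivity
  obtain ⟨x₀, hx₀⟩ := Filter.eventually_atTop.1 ((Real.tendsto_log_atTop.eventually_ge_atTop 1).and
    ((Real.tendsto_log_atTop.comp Real.tendsto_log_atTop).eventually_ge_atTop 1))
  refine ⟨c₁ / 2, C, by positivity, hC0, max (max X₄ X₅) (max n₀ (max ⌈x₀⌉₊ 1)), fun X hX ρ hρ hρ1 => ?_⟩
  have e4 : X₄ ≤ X := (le_max_left _ _).trans ((le_max_left _ _).trans hX)
  have e5 : X₅ ≤ X := (le_max_right _ _).trans ((le_max_left _ _).trans hX)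
  have en : n₀ ≤ X := (le_max_left _ _).trans ((le_max_right _ _).trans hX)
  have ex : x₀ ≤ X := (Nat.le_ceil _).trans (by
    exact_mod_cast (le_max_left _ _).trans ((le_max_right _ _).trans ((le_max_right _ _).trans hX)))
  have hX1 : 1 ≤ X := (le_max_right _ _).trans ((le_max_right _ _).trans ((le_max_right _ _).trans hX))
  have hXr : (0 : ℝ) < X := by exact_mod_cast hX1
  obtain ⟨hL1, hLL⟩ := hx₀ X ex
  have hLL1 : 1 ≤ Real.log (Real.log X) := hLL
  have hL0 : 0 < Real.log X := by linarith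
  have hρ0 : 0 < ρ := lt_of_lt_of_le (by positivity) hρ
  have hρL : C ≤ ρ * Real.log X := by rwa [div_le_iff₀ hL0] at hρ
  -- from the construction to the lost integers
  have key : ∀ R N : Finset ℕ, (∀ n ∈ N, X < n ∧ n ≤ 2 * X ∧ 2 ∣ n ∧ Pool.Agent.R460.GS.WinL 1 n ∧ Hit R n) →
      (N.card : ℝ) ≤ (lost (1 / 120) 1 R X 1 0).card := by
    intro R N hN
    rw [Nat.cast_le]
    apply card_le_card
    intro n hn
    obtain ⟨h1, h2, h3, h4, h5⟩ := hN n hn
    rw [mem_lost]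
    refine ⟨⟨h1, h2⟩, h3, ?_, hgood n (by omega) h3 h4, ?_⟩
    · rw [Nat.cast_one]
      exact Int.modEq_one
    · rw [hit_parts h5]
      simp
  obtain ⟨R₁, N₁, a1, a2, a3, a4⟩ := hl1 X e4 ρ hρ0 hρ1 (by rw [hC] at hρL; linarith)
  rw [← hc₁] at a4
  by_cases hcase : (2 * K + 2) / ρ ≤ Real.log (Real.log X) / 2
  · obtain ⟨R₂, N₂, b1, b2, b3, b4⟩ := hl2 X e5 ρ hρ0 hρ1 hcase
    have hmono : X * Real.exp (- Real.exp (C / ρ)) ≤ X * Real.exp (- Real.exp ((2 * K + 4) / ρ)) := by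
      apply mul_le_mul_of_nonneg_left _ hXr.le
      apply Real.exp_le_exp.2
      apply neg_le_neg
      apply Real.exp_le_exp.2
      apply div_le_div_of_nonneg_right _ hρ0.le
      rw [hC]
      linarith
    by_cases hbig : ρ * Real.log X ≤ X * Real.exp (- Real.exp (C / ρ))
    · refine ⟨R₂, b1, b2, ?_⟩
      refine le_trans ?_ (key R₂ N₂ b3)
      refine le_trans ?_ b4
      refine le_trans ?_ hmono
      have h0 : 0 ≤ X * Real.exp (- Real.exp (C / ρ)) := by positivity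
      nlinarith
    · refine ⟨R₁, a1, a2, ?_⟩
      refine le_trans ?_ (key R₁ N₁ a3)
      refine le_trans ?_ a4
      nlinarith
  · refine ⟨R₁, a1, a2, ?_⟩
    refine le_trans ?_ (key R₁ N₁ a3)
    refine le_trans ?_ a4
    have h1 : X * Real.exp (- Real.exp (C / ρ)) ≤ 1 := by
      have h2 : Real.log (Real.log X) ≤ C / ρ := by
        push Not at hcase
        have h3 : 2 * ((2 * K + 2) / ρ) ≤ C / ρ := by
          rw [mul_div_assoc']
          apply div_le_div_of_nonneg_right _ hρ0.le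
          rw [hC]
          linarith
        linarith
      have h3 : Real.log X ≤ Real.exp (C / ρ) := by
        calc Real.log X = Real.exp (Real.log (Real.log X)) := (Real.exp_log hL0).symm
          _ ≤ _ := Real.exp_le_exp.2 h2
      calc X * Real.exp (- Real.exp (C / ρ)) ≤ X * Real.exp (- Real.log X) := by
            apply mul_le_mul_of_nonneg_left _ hXr.le
            apply Real.exp_le_exp.2
            linarith
        _ = 1 := by
            rw [Real.exp_neg, Real.exp_log hXr]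
            exact mul_inv_cancel₀ hXr.ne'
    have h2 : 1 ≤ ρ * Real.log X := by
      refine le_trans ?_ hρL
      rw [hC]
      linarith
    nlinarith

lemma parts_le_of {A B : Set ℕ} {n : ℕ} (h : ∀ p ∈ A, p ≤ n → p ∈ B) : parts A n ≤ parts B n := by
  classical
  unfold parts
  apply card_le_card
  intro p hp
  rw [mem_filter, mem_range] at hp ⊢
  exact ⟨hp.1, h p hp.2.1 (by omega), h _ hp.2.2.1 (by omega), hp.2.2.2⟩

open Classical in
/-- The primes up to `2 X` outside of `Q`. -/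
noncomputable def missing (Q : Set ℕ) (X : ℕ) : Finset ℕ := (Icc 1 (2 * X)).filter (fun p => p.Prime ∧ p ∉ Q)

open Classical in
/-- The even numbers of `(X, 2 X]`, congruent to `a` modulo `q`, which are not sums of two distinct elements of
`Q`. -/
noncomputable def exceptions (Q : Set ℕ) (X q : ℕ) (a : ℤ) : Finset ℕ :=
  (Ioc X (2 * X)).filter (fun n : ℕ => 2 ∣ n ∧ (n : ℤ) ≡ a [ZMOD q] ∧ ¬ ∃ p ∈ Q, ∃ p' ∈ Q, p ≠ p' ∧ n = p + p')

/-- (3) -/
theorem subsets : ∃ c : ℝ, 0 < c ∧ ∀ (A T : ℕ) (ε : ℝ), 0 < ε → ∃ X₀ : ℕ, ∀ X : ℕ, X₀ ≤ X →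
    ∀ q : ℕ, 1 ≤ q → (q : ℝ) ≤ (X : ℝ) ^ (7 / 10 - ε) → ∀ a : ℤ, (Int.gcd a q : ℝ) ≤ Real.log X ^ T →
    ∀ Q : Set ℕ, Q ⊆ primes →
    ((missing Q X).card : ℝ) ≤ c * (q.totient / q) * X / (Real.log X * Real.log (Real.log (Real.log X))) →
    ((exceptions Q X q a).card : ℝ) ≤ X / (q * Real.log X ^ A) := by
  classical
  obtain ⟨c₁, C₁, hc₁, hC₁, X₁, h1⟩ := upper (1 / 120) 1 (by norm_num) one_pos
  obtain ⟨n₀, hgood⟩ := good_of_win
  refine ⟨c₁ / 2, by positivity, fun A T ε hε => ?_⟩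
  obtain ⟨x₀, h0⟩ := Pool.Agent.R460.GS.class_few (Pool.Agent.R460.GS.WinL 1) 1
    ⟨0, fun n _ _ h => h⟩ ε hε (A + 1) T
  have t3 : Filter.Tendsto (fun x : ℝ => Real.log (Real.log (Real.log x))) Filter.atTop Filter.atTop :=
    Real.tendsto_log_atTop.comp (Real.tendsto_log_atTop.comp Real.tendsto_log_atTop)
  have t2 : Filter.Tendsto (fun x : ℝ => Real.log (Real.log x)) Filter.atTop Filter.atTop :=
    Real.tendsto_log_atTop.comp Real.tendsto_log_atTop
  have ev1 := (isLittleO_log_rpow_rpow_atTop ((A + 2 : ℕ) : ℝ) (show (0 : ℝ) < 3 / 10 by norm_num)).bound one_pos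
  obtain ⟨x₁, hx₁⟩ := Filter.eventually_atTop.1 (((t3.eventually_ge_atTop 1).and
    (t2.eventually_ge_atTop (A + Real.log (4 * C₁ + 4) + 1))).and
    ((Real.tendsto_log_atTop.eventually_ge_atTop (8 + 4 * C₁ * (c₁ + 1))).and ev1))
  refine ⟨max (max X₁ n₀) (max (max ⌈x₀⌉₊ ⌈x₁⌉₊) 3), fun X hX q hq hqX a ha Q hQ hmiss => ?_⟩
  have e1 : X₁ ≤ X := (le_max_left _ _).trans ((le_max_left _ _).trans hX)
  have en : n₀ ≤ X := (le_max_right _ _).trans ((le_max_left _ _).trans hX)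
  have ex₀ : x₀ ≤ X := (Nat.le_ceil _).trans (by
    exact_mod_cast (le_max_left _ _).trans ((le_max_left _ _).trans ((le_max_right _ _).trans hX)))
  have ex₁ : x₁ ≤ X := (Nat.le_ceil _).trans (by
    exact_mod_cast (le_max_right _ _).trans ((le_max_left _ _).trans ((le_max_right _ _).trans hX)))
  have hX3 : 3 ≤ X := (le_max_right _ _).trans ((le_max_right _ _).trans hX)
  have hXr : (3 : ℝ) ≤ X := by exact_mod_cast hX3
  have hq0 : (0 : ℝ) < q := by exact_mod_cast hq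
  obtain ⟨⟨hLLL, hLL⟩, hL, hev⟩ := hx₁ X ex₁
  obtain ⟨L, hLd⟩ : ∃ L, L = Real.log (X : ℝ) := ⟨_, rfl⟩
  rw [← hLd] at hLLL hLL hL hmiss ha ⊢
  have hcc : 0 < C₁ * (c₁ + 1) := by positivity
  have hL0 : 0 < L := by linarith
  have hX0 : (0 : ℝ) < X := by linarith
  rw [one_mul, Real.rpow_natCast, ← hLd, Real.norm_of_nonneg (by positivity),
    Real.norm_of_nonneg (by positivity)] at hev
  -- the modulus
  have hexp0 : 0 ≤ 7 / 10 - ε := by
    by_contra hcon
    push Not at hcon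
    have h2 : (X : ℝ) ^ (7 / 10 - ε) < 1 := Real.rpow_lt_one_of_one_lt_of_neg (by linarith) hcon
    have h3 : (1 : ℝ) ≤ q := by exact_mod_cast hq
    linarith
  have hq7 : (q : ℝ) ≤ (X : ℝ) ^ (7 / 10 : ℝ) :=
    hqX.trans (Real.rpow_le_rpow_of_exponent_le (by linarith) (by linarith))
  have hX37 : (X : ℝ) ^ (3 / 10 : ℝ) * (X : ℝ) ^ (7 / 10 : ℝ) = X := by
    rw [← Real.rpow_add hX0]
    norm_num
  have hqX1 : q ≤ X := by
    have h2 : (q : ℝ) ≤ X := by
      refine hq7.trans ?_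
      calc (X : ℝ) ^ (7 / 10 : ℝ) ≤ (X : ℝ) ^ (1 : ℝ) :=
            Real.rpow_le_rpow_of_exponent_le (by linarith) (by norm_num)
        _ = X := Real.rpow_one _
    exact_mod_cast h2
  have hXq : (X : ℝ) ^ (3 / 10 : ℝ) ≤ X / q := by
    rw [le_div_iff₀ hq0]
    calc (X : ℝ) ^ (3 / 10 : ℝ) * q ≤ (X : ℝ) ^ (3 / 10 : ℝ) * (X : ℝ) ^ (7 / 10 : ℝ) :=
          mul_le_mul_of_nonneg_left hq7 (by positivity)
      _ = X := hX37
  obtain ⟨M, hM⟩ : ∃ M, M = Real.log L := ⟨_, rfl⟩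
  rw [← hM] at hLLL hLL hmiss
  have hlog4 : 0 ≤ Real.log (4 * C₁ + 4) := Real.log_nonneg (by linarith)
  have hA0 : (0 : ℝ) ≤ A := Nat.cast_nonneg _
  have hM1 : 1 ≤ M := by linarith
  have hLM : L = Real.exp M := by rw [hM, Real.exp_log hL0]
  have hφ0 : (0 : ℝ) < q.totient := by exact_mod_cast Nat.totient_pos.2 hq
  have hφq : (q.totient : ℝ) ≤ q := by exact_mod_cast Nat.totient_le q
  obtain ⟨ρ, hρ⟩ : ∃ ρ, ρ = c₁ / 2 * (q.totient / q) / Real.log M := ⟨_, rfl⟩
  have hlM : 0 < Real.log M := by linarith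
  have hρ0 : 0 < ρ := by rw [hρ]; positivity
  obtain ⟨R, hR⟩ : ∃ R, R = missing Q X := ⟨_, rfl⟩
  have h2 := h1 X e1 q hq hqX1 a ρ hρ0 R (by
    rw [hR, ← hLd]
    refine hmiss.trans (le_of_eq ?_)
    rw [hρ]
    field_simp)
  rw [← hLd] at h2
  have hexp : Real.exp (c₁ / (q / q.totient * ρ)) = M ^ 2 := by
    have : c₁ / (q / q.totient * ρ) = 2 * Real.log M := by
      rw [hρ]
      field_simp
    rw [this, two_mul, Real.exp_add, Real.exp_log (by linarith), pow_two]
  rw [hexp] at h2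
  -- the exceptional set
  obtain ⟨B, hB⟩ : ∃ B, B = (Ioc X (2 * X)).filter (fun n : ℕ => 2 ∣ n ∧ (n : ℤ) ≡ a [ZMOD q] ∧
    ¬ Pool.Agent.R460.GS.WinL 1 n) := ⟨_, rfl⟩
  have h2X : ((2 * X : ℕ) : ℝ) = 2 * X := by push_cast; ring
  have hlog2X : L ≤ Real.log (2 * X) := by
    rw [hLd]
    exact Real.log_le_log (by linarith) (by linarith)
  have hBc : (B.card : ℝ) ≤ X / (q * L ^ A) / 4 := by
    obtain ⟨k1, k2⟩ := h0 (2 * X) (by linarith) q hq (by
      refine hqX.trans ?_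
      exact Real.rpow_le_rpow hX0.le (by linarith) hexp0) a
      (ha.trans (pow_le_pow_left₀ hL0.le hlog2X T))
    have h3 : (B.card : ℝ) ≤ 2 * X / (q * Real.log (2 * X) ^ (A + 1)) := by
      refine le_trans ?_ k2
      rw [Nat.cast_le, ← Set.ncard_coe_finset]
      apply Set.ncard_le_ncard _ k1
      intro n hn
      rw [mem_coe, hB, mem_filter, mem_Ioc] at hn
      obtain ⟨⟨h4, h5⟩, h6, h7, h8⟩ := hn
      refine ⟨by omega, ?_, h6, h7, h8⟩
      have : (n : ℝ) ≤ ((2 * X : ℕ) : ℝ) := by exact_mod_cast h5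
      rwa [h2X] at this
    refine h3.trans ?_
    have hl20 : 0 < Real.log (2 * X) := by linarith
    rw [div_div, div_le_div_iff₀ (by positivity) (by positivity)]
    have h5 : L ^ (A + 1) ≤ Real.log (2 * X) ^ (A + 1) := pow_le_pow_left₀ hL0.le hlog2X _
    have h6 : 8 * L ^ A ≤ L ^ (A + 1) := by
      rw [pow_succ, mul_comm]
      apply mul_le_mul_of_nonneg_left _ (by positivity)
      linarith
    calc 2 * (X : ℝ) * (q * L ^ A * 4) = X * q * (8 * L ^ A) := by ring
      _ ≤ X * q * Real.log (2 * X) ^ (A + 1) := mul_le_mul_of_nonneg_left (h6.trans h5) (by positivity)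
      _ = _ := by ring
  have hsub : exceptions Q X q a ⊆ B ∪ lost (1 / 120) 1 R X q a := by
    intro n hn
    unfold exceptions at hn
    rw [mem_filter, mem_Ioc] at hn
    obtain ⟨h3, h4, hna, h5⟩ := hn
    rw [mem_union]
    by_cases hw : Pool.Agent.R460.GS.WinL 1 n
    · right
      rw [mem_lost]
      refine ⟨h3, h4, hna, hgood n (by omega) h4 hw, ?_⟩
      have h6 : parts Q n = 0 := by
        unfold parts
        rw [card_eq_zero, filter_eq_empty_iff]
        rintro p hp ⟨k1, k2, k3⟩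
        rw [mem_range] at hp
        exact h5 ⟨p, k1, n - p, k2, k3.ne, by omega⟩
      have h7 : parts (primes \ (R : Set ℕ)) n ≤ parts Q n := by
        apply parts_le_of
        rintro p ⟨k1, k2⟩ k3
        by_contra k4
        apply k2
        rw [mem_coe, hR]
        unfold missing
        rw [mem_filter, mem_Icc]
        have hk : p.Prime := k1
        exact ⟨⟨hk.pos, by omega⟩, k1, k4⟩
      have h8 : parts (primes \ (R : Set ℕ)) n = 0 := by omega
      rw [h8]
      simp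
    · left
      rw [hB, mem_filter, mem_Ioc]
      exact ⟨h3, h4, hna, hw⟩
  have h3 := (card_le_card hsub).trans (card_union_le _ _)
  have h4 : ((exceptions Q X q a).card : ℝ) ≤ B.card + (lost (1 / 120) 1 R X q a).card := by exact_mod_cast h3
  have hXqA : (X : ℝ) / (q * L ^ A) = X / q / L ^ A := by rw [div_div]
  rw [hXqA] at hBc ⊢
  have hXq0 : 0 < (X : ℝ) / q := by positivity
  -- the size of the second term
  have k1 : C₁ * (ρ * L) ≤ X / q / L ^ A / 4 := by
    have k2 : ρ ≤ c₁ := by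
      rw [hρ, div_le_iff₀ hlM]
      have : (q.totient : ℝ) / q ≤ 1 := by
        rw [div_le_one hq0]
        exact hφq
      nlinarith
    rw [div_div, le_div_iff₀ (by positivity)]
    calc C₁ * (ρ * L) * (L ^ A * 4) ≤ C₁ * (c₁ * L) * (L ^ A * 4) := by gcongr
      _ = (4 * (C₁ * c₁)) * L ^ (A + 1) := by ring
      _ ≤ L * L ^ (A + 1) := by
          apply mul_le_mul_of_nonneg_right _ (by positivity)
          nlinarith
      _ = L ^ (A + 2) := by ring
      _ ≤ _ := hev.trans hXq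
  have k2 : C₁ * (X / q * Real.exp (- M ^ 2)) ≤ X / q / L ^ A / 4 := by
    have k3 : Real.exp (- M ^ 2) ≤ 1 / (L ^ A * (4 * C₁ + 4)) := by
      rw [le_div_iff₀ (by positivity), hLM, ← Real.exp_nat_mul,
        show (4 * C₁ + 4 : ℝ) = Real.exp (Real.log (4 * C₁ + 4)) from (Real.exp_log (by linarith)).symm,
        ← Real.exp_add, ← Real.exp_add]
      rw [← Real.exp_zero]
      apply Real.exp_le_exp.2
      have k4 : A * M + Real.log (4 * C₁ + 4) ≤ M ^ 2 := by nlinarith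
      linarith
    calc C₁ * (X / q * Real.exp (- M ^ 2)) ≤ C₁ * (X / q * (1 / (L ^ A * (4 * C₁ + 4)))) := by gcongr
      _ = X / q / L ^ A * (C₁ / (4 * C₁ + 4)) := by
          field_simp
      _ ≤ X / q / L ^ A * (1 / 4) := by
          apply mul_le_mul_of_nonneg_left _ (by positivity)
          rw [div_le_div_iff₀ (by linarith) (by norm_num)]
          linarith
      _ = _ := by ring
  have k3 : 0 ≤ X / q / L ^ A := by positivity
  linarith

/-- **Goldbach's problem with a sparse set of primes deleted.**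

1. Let `δ, η > 0`. There are `c, C > 0` such that for all large `X`, all moduli `q ≤ X` and all classes `a`, all
  `ρ > 0` and all sets `R` of at most `ρ X / log X` integers: of the even numbers `n` of `(X, 2 X]`, `n ≡ a` modulo
  `q`, with at least `δ n ^ 2 / (φ(n) log ^ 2 n)` partitions into two distinct primes, at most
  `C (ρ log X + (X / q) exp (- exp (c / (ρ q / φ(q)))))` lose at least the proportion `η` of these partitions if the
  primes of `R` are deleted.
2. For `q = 1` this is sharp, even for the numbers which lose all partitions: there are `c, C > 0` such that for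
  all large `X` and all `ρ` between `C / log X` and `1` there is a set `R` of at most `ρ X / log X` primes up to
  `2 X` such that at least `c (ρ log X + X exp (- exp (C / ρ)))` even numbers `n` of `(X, 2 X]` with at least
  `n ^ 2 / (120 φ(n) log ^ 2 n)` partitions into two distinct primes have no partition into two distinct primes
  outside of `R`.
3. There is `c > 0` such that for all `A`, `T` and `ε > 0`, all large `X`, all moduli `q ≤ X ^ (7/10 - ε)` and all
  classes `a` with `gcd(a, q) ≤ log ^ T X`: every set `Q` of primes which contains all but at most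
  `c (φ(q) / q) X / (log X log log log X)` of the primes up to `2 X` represents all but at most
  `X / (q log ^ A X)` of the even numbers `n` of `(X, 2 X]`, `n ≡ a` modulo `q`, as sums of two distinct elements
  of `Q`. -/
theorem result :
    (∀ δ η : ℝ, 0 < δ → 0 < η → ∃ c C : ℝ, 0 < c ∧ 0 < C ∧ ∃ X₀ : ℕ, ∀ X : ℕ, X₀ ≤ X →
      ∀ q : ℕ, 1 ≤ q → q ≤ X → ∀ a : ℤ, ∀ ρ : ℝ, 0 < ρ → ∀ R : Finset ℕ,
        (R.card : ℝ) ≤ ρ * (X / Real.log X) → ((lost δ η R X q a).card : ℝ) ≤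
          C * (ρ * Real.log X + X / q * Real.exp (- Real.exp (c / (q / q.totient * ρ))))) ∧
    (∃ c C : ℝ, 0 < c ∧ 0 < C ∧ ∃ X₀ : ℕ, ∀ X : ℕ, X₀ ≤ X → ∀ ρ : ℝ, C / Real.log X ≤ ρ → ρ ≤ 1 →
      ∃ R : Finset ℕ, (∀ p ∈ R, p.Prime ∧ p ≤ 2 * X) ∧ (R.card : ℝ) ≤ ρ * (X / Real.log X) ∧
        c * (ρ * Real.log X + X * Real.exp (- Real.exp (C / ρ))) ≤ ((lost (1 / 120) 1 R X 1 0).card : ℝ)) ∧
    (∃ c : ℝ, 0 < c ∧ ∀ (A T : ℕ) (ε : ℝ), 0 < ε → ∃ X₀ : ℕ, ∀ X : ℕ, X₀ ≤ X →
      ∀ q : ℕ, 1 ≤ q → (q : ℝ) ≤ (X : ℝ) ^ (7 / 10 - ε) → ∀ a : ℤ, (Int.gcd a q : ℝ) ≤ Real.log X ^ T →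
      ∀ Q : Set ℕ, Q ⊆ primes →
      ((missing Q X).card : ℝ) ≤ c * (q.totient / q) * X / (Real.log X * Real.log (Real.log (Real.log X))) →
      ((exceptions Q X q a).card : ℝ) ≤ X / (q * Real.log X ^ A)) :=
  ⟨fun δ η hδ hη => upper δ η hδ hη, lower, subsets⟩

end Pool.Agent.Results.MP_7b7e48_nt.DeletedPrimes
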