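import Pool.Agent.K4H18.EK.A22

/-!
# Gaussian laws over the Goldbach partitions of almost all members of a family of small energy

Definitions used (all in `Pool.Agent.H560R3.GB`): `C₂`: the twin prime constant
`∏_{p > 2} (1 - 1 / (p - 1) ^ 2)`; `sing n`: the singular series
`2 C₂ ∏_{p ∣ n, p > 2} (p - 1) / (p - 2)`; `g n`: the number of ordered representations of `n` as a
sum of two primes; `HL n = sing n * n / log ^ 2 n`: the prediction of Hardy and Littlewood for `g n`;
`energy h x s`: the number of solutions of `s (v 1) + ... + s (v h) = s (w 1) + ... + s (w h)` with all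
`v i`, `w i` in `{1, ..., x}`.
-/

set_option autoImplicit false

namespace Pool.Agent.Results.MP_7b7e48_nt.GaussianLaws

open Finset Polynomial Pool.Agent.H560R3.GB ProbabilityTheory

/-- `F 1, ..., F k` are non-constant irreducible polynomials with integer coefficients, none of them is
`X` or `-X`, and `F i ≠ ± F j` for `i ≠ j`. -/
def Admissible {k : ℕ} (F : Fin k → ℤ[X]) : Prop :=
  (∀ i, Irreducible (F i) ∧ 0 < (F i).natDegree ∧ ¬ Associated (F i) X) ∧ ∀ i j, i ≠ j → ¬ Associated (F i) (F j)

/-- The number of the ordered pairs `(p, q)` of primes with `p + q = n` for which, for every `i`, the number of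
the distinct prime factors of `F i (p)` is at most `log log n + t i * √(log log n)`. -/
noncomputable def count {k : ℕ} (F : Fin k → ℤ[X]) (n : ℕ) (t : Fin k → ℝ) : ℕ :=
  ((antidiagonal n).filter (fun v : ℕ × ℕ => v.1.Prime ∧ v.2.Prime ∧ ∀ i,
    (((F i).eval (v.1 : ℤ)).natAbs.primeFactors.card : ℝ) ≤
      Real.log (Real.log n) + t i * √(Real.log (Real.log n)))).card

/-- `n` is a sum of two distinct primes, the number of its representations as a sum of two primes agrees with
the prediction of Hardy and Littlewood up to a relative error `ε`, and over these representations `n = p + q`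
the standardised numbers of the prime factors of `F 1 (p), ..., F k (p)` have, up to `ε`, the joint distribution
function of independent standard normal variables. -/
def Good {k : ℕ} (F : Fin k → ℤ[X]) (ε : ℝ) (n : ℕ) : Prop :=
  |(g n : ℝ) - HL n| ≤ ε * HL n ∧ (∃ p q : ℕ, p.Prime ∧ q.Prime ∧ p ≠ q ∧ p + q = n) ∧
  ∀ t : Fin k → ℝ, |(count F n t : ℝ) - g n * ∏ i, cdf (gaussianReal 0 1) (t i)| ≤ ε * g n

open Classical in
/-- The number of `m ∈ {1, ..., x}` for which `s m` is not good. -/
noncomputable def exceptions {k : ℕ} (F : Fin k → ℤ[X]) (ε : ℝ) (x : ℕ) (s : ℕ → ℕ) : ℕ :=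
  ((Icc 1 x).filter (fun m => ¬ Good F ε (s m))).card

/-- For all `F 1, ..., F k` as above, all `h ≥ 1`, `B`, `C`, `U` and all `ε > 0` there is an `N₀` such that for all
`N ≥ N₀` and for every family `s 1, ..., s x` of even numbers in `[0, B N]` whose additive energy of order `h`
is at most `x ^ (2 h) log ^ C N / N`, all the members of the family but at most `x / log ^ U N` are good. -/
theorem result {k : ℕ} (F : Fin k → ℤ[X]) (hF : Admissible F) (h B C U : ℕ) (hh : 1 ≤ h) (ε : ℝ) (hε : 0 < ε) :
    ∃ N₀ : ℕ, ∀ N : ℕ, N₀ ≤ N → ∀ (x : ℕ) (s : ℕ → ℕ), (∀ m ∈ Icc 1 x, s m ≤ B * N ∧ Even (s m)) →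
      (energy h x s : ℝ) * N ≤ Real.log N ^ C * (x : ℝ) ^ (2 * h) →
      (exceptions F ε x s : ℝ) ≤ x / Real.log N ^ U := by
  classical
  obtain ⟨N₀, hN₀⟩ := Pool.Agent.K4H18.EK.fam_gauss F
    ⟨fun i => (hF.1 i).1, fun i => (hF.1 i).2.1, fun i => (hF.1 i).2.2, hF.2⟩ h B C U hh ε hε
  refine ⟨N₀, fun N hN x s hs hE => ?_⟩
  unfold exceptions
  apply hN₀ N hN x s hs hE _ (filter_subset _ _)
  intro m hm hgood
  rw [mem_filter] at hm
  apply hm.2
  obtain ⟨⟨h1, h2⟩, h3, h4⟩ := hgood
  refine ⟨h1, h2, fun t => ?_⟩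
  have h5 := h3 t
  have e : (count F (s m) t : ℝ) = Pool.Agent.K4H18.EK.GC F (s m) t := by
    unfold count Pool.Agent.K4H18.EK.GC Pool.Agent.K4H18.EK.bc Pool.Agent.K4H18.EK.Pn Pool.Agent.K4H18.EK.om
    rw [Nat.cast_inj]
    set n := s m with hn
    have hσ : 0 < √(Real.log (Real.log n)) := Real.sqrt_pos.2 (by linarith)
    apply card_bij (fun v _ => v.1)
    · intro v hv
      rw [mem_filter, HasAntidiagonal.mem_antidiagonal] at hv
      obtain ⟨g1, g2, g3, g4⟩ := hv
      rw [mem_filter, mem_filter, mem_Icc]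
      have e : n - v.1 = v.2 := by omega
      refine ⟨⟨⟨g2.one_le, by omega⟩, g2, by rw [e]; exact g3⟩, fun i => ?_⟩
      rw [div_le_iff₀ hσ]
      have := g4 i
      linarith
    · intro v hv w hw hvw
      rw [mem_filter, HasAntidiagonal.mem_antidiagonal] at hv hw
      have := hv.1
      have := hw.1
      ext
      · exact hvw
      · omega
    · intro p hp
      rw [mem_filter, mem_filter, mem_Icc] at hp
      obtain ⟨⟨⟨g1, g2⟩, g3, g4⟩, g5⟩ := hp
      refine ⟨(p, n - p), ?_, rfl⟩
      rw [mem_filter, HasAntidiagonal.mem_antidiagonal]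
      refine ⟨by omega, g3, g4, fun i => ?_⟩
      have := g5 i
      rw [div_le_iff₀ hσ] at this
      linarith
  rw [e]
  exact h5

end Pool.Agent.Results.MP_7b7e48_nt.GaussianLaws
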