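import Pool.Agent.R460.GS.Conv
import Pool.Agent.Y843.AC.GoldPr
import Pool.Agent.Y843.HG.Gold

/-!
# Narrow arithmetic progressions inside the Goldbach partitions of almost all even numbers

For almost all even numbers `n`, also in the residue classes of every modulus up to `x ^ (7/10 - ρ)`, the set of
the primes `p` for which `n - p` is a prime satisfies a theorem of Szemerédi type: in every window of a length of
at least `n / log ^ A n` the number of the progressions of `k` of these primes with differences at most `D` is of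
the expected order for all `D ≥ log ^ B n`, and every subset of positive relative density contains a positive
proportion of them.
-/

set_option autoImplicit false

namespace Pool.Agent.Results.MP_7b7e48_nt.ProgressionsOfPartitions

open Finset

/-- The primes `p` in `(y₁, y₂]` for which `n - p` is a prime: the partitions of `n` with one part in the
window. (In windows `(y₁, y₂]` with `2 y₂ < n` these are partitions into two distinct primes, `p < n - p`, each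
counted once.) -/
def P (n y₁ y₂ : ℕ) : Finset ℕ := (Ioc y₁ y₂).filter (fun p => p.Prime ∧ (n - p).Prime)

/-- The expected density `n / (φ(n) log ^ 2 n)`, up to a constant factor that of Hardy and Littlewood. -/
noncomputable def dens (n : ℕ) : ℝ := n / (n.totient * Real.log n ^ 2)

open Classical in
/-- The number of the progressions `a, a + d, …, a + (k - 1) d` in `S` with `1 ≤ d ≤ D`. -/
noncomputable def AP (k D : ℕ) (S : Finset ℕ) : ℕ :=
  ((S ×ˢ Icc 1 D).filter (fun q => ∀ j < k, q.1 + j * q.2 ∈ S)).card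

open Classical in
/-- The elements of `S` which lie in no progression of `k` elements of `S` with a difference in `[1, D]`. -/
noncomputable def outside (k : ℕ) (D : ℝ) (S : Finset ℕ) : Finset ℕ :=
  S.filter (fun p => ¬ ∃ a d : ℕ, 1 ≤ d ∧ (d : ℝ) ≤ D ∧ (∀ j < k, a + j * d ∈ S) ∧ ∃ j < k, p = a + j * d)

/-- The expected order `(y₂ - y₁) D dens(n) ^ k` of the number of the progressions. -/
noncomputable def E (k n y₁ y₂ D : ℕ) : ℝ := ((y₂ : ℝ) - y₁) * D * dens n ^ k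

/-- In all windows of a length of at least `n / log ^ A n` the number of the partitions of `n` is at least `c`
times the expected order, and the number of their progressions of length `k` with differences at most `D` is
between `c` and `C` times the expected order, for all `D ≥ log ^ B n` up to the length of the window. -/
def Right (k B : ℕ) (c C : ℝ) (A n : ℕ) : Prop :=
  ∀ y₁ y₂ : ℕ, y₂ ≤ n → (n : ℝ) / Real.log n ^ A ≤ (y₂ : ℝ) - y₁ →
    c * (((y₂ : ℝ) - y₁) * dens n) ≤ (P n y₁ y₂).card ∧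
    ∀ D : ℕ, Real.log n ^ B ≤ D → (D : ℝ) ≤ (y₂ : ℝ) - y₁ →
      c * E k n y₁ y₂ D ≤ AP k D (P n y₁ y₂) ∧ (AP k D (P n y₁ y₂) : ℝ) ≤ C * E k n y₁ y₂ D

/-- In all windows of a length of at least `n / log ^ A n`: every set `S` of at least the proportion `δ` of the
partitions of `n` contains at least the proportion `c` of all their progressions of length `k` with differences
at most `D`, for all `D ≥ log ^ B n` up to the length of the window, and all elements of `S` but the proportion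
`δ` lie in progressions of `k` elements of `S` with differences at most `log ^ B n`. -/
def Dense (k B : ℕ) (δ c : ℝ) (A n : ℕ) : Prop :=
  ∀ y₁ y₂ : ℕ, y₂ ≤ n → (n : ℝ) / Real.log n ^ A ≤ (y₂ : ℝ) - y₁ → ∀ S ⊆ P n y₁ y₂,
    δ * (P n y₁ y₂).card ≤ S.card →
      ((outside k (Real.log n ^ B) S).card : ℝ) ≤ δ * S.card ∧
      ∀ D : ℕ, Real.log n ^ B ≤ D → (D : ℝ) ≤ (y₂ : ℝ) - y₁ → c * AP k D (P n y₁ y₂) ≤ AP k D S

lemma AP_eq (k D : ℕ) (S : Finset ℕ) : AP k D S = (Pool.Agent.Y843.AC.APs k D S).card := rfl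

lemma out_eq (k : ℕ) (D : ℝ) (S : Finset ℕ) : outside k D S = Pool.Agent.Y843.HG.Iso k D S := rfl

lemma dens_eq (n : ℕ) : dens n = Pool.Agent.Y843.AC.dg n := rfl

/-- the singular series -/
lemma sing_low (n : ℕ) (hn : 0 < n) (h2 : 2 ∣ n) :
    1 / 2 * ((n : ℝ) / n.totient) ≤ Pool.Agent.H560R3.GB.sing n := by
  have h1 : (n : ℝ) / n.totient = ∏ p ∈ n.primeFactors, ((p : ℝ) / ((p : ℝ) - 1)) := by
    have e1 : (n.totient : ℝ) = n * ∏ p ∈ n.primeFactors, (1 - (p : ℝ)⁻¹) := by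
      have := Nat.totient_eq_mul_prod_factors n
      have h := congrArg (fun q : ℚ => (q : ℝ)) this
      push_cast at h
      exact h
    have hn0 : (n : ℝ) ≠ 0 := by exact_mod_cast hn.ne'
    have h3 : ∀ p ∈ n.primeFactors, (1 - (p : ℝ)⁻¹) ≠ 0 := by
      intro p hp
      have hp2 : (2 : ℝ) ≤ p := by exact_mod_cast (Nat.prime_of_mem_primeFactors hp).two_le
      have : (p : ℝ)⁻¹ ≤ 2⁻¹ := inv_anti₀ (by norm_num) hp2
      have h4 : (2 : ℝ)⁻¹ = 1 / 2 := by norm_num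
      rw [h4] at this
      intro h5
      linarith
    have h5 : ∏ p ∈ n.primeFactors, (1 - (p : ℝ)⁻¹) ≠ 0 := prod_ne_zero_iff.2 h3
    rw [e1, div_mul_eq_div_div, div_self hn0, one_div, ← prod_inv_distrib]
    apply prod_congr rfl
    intro p hp
    have hp0 : (p : ℝ) ≠ 0 := by exact_mod_cast (Nat.prime_of_mem_primeFactors hp).ne_zero
    have hp2 : (2 : ℝ) ≤ p := by exact_mod_cast (Nat.prime_of_mem_primeFactors hp).two_le
    have hp1 : (p : ℝ) - 1 ≠ 0 := by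
      intro h
      linarith
    have h6 := h3 p hp
    field_simp
  have h2m : 2 ∈ n.primeFactors := Nat.mem_primeFactors.2 ⟨Nat.prime_two, h2, hn.ne'⟩
  have hsp : n.primeFactors = insert 2 (n.primeFactors.filter (fun p => 2 < p)) := by
    ext p
    rw [mem_insert, mem_filter]
    constructor
    · intro hp
      have := (Nat.prime_of_mem_primeFactors hp).two_le
      by_cases h : p = 2
      · left; exact h
      · right; exact ⟨hp, by omega⟩
    · rintro (rfl | h)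
      · exact h2m
      · exact h.1
  rw [h1, hsp, prod_insert (by simp), Pool.Agent.W93.GB.sing_eq]
  have hC := Pool.Agent.W93.GB.C2_half
  have h7 : ∏ p ∈ n.primeFactors.filter (fun p => 2 < p), ((p : ℝ) / ((p : ℝ) - 1)) ≤
      ∏ p ∈ n.primeFactors.filter (fun p => 2 < p), Pool.Agent.W93.GB.dv p := by
    apply prod_le_prod
    · intro p hp
      have h3 : (3 : ℝ) ≤ p := by exact_mod_cast (mem_filter.1 hp).2
      apply div_nonneg <;> linarith
    · intro p hp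
      have h3 : (3 : ℝ) ≤ p := by exact_mod_cast (mem_filter.1 hp).2
      unfold Pool.Agent.W93.GB.dv
      rw [div_le_div_iff₀ (by linarith) (by linarith)]
      nlinarith
  have h8 : (0 : ℝ) ≤ ∏ p ∈ n.primeFactors.filter (fun p => 2 < p), ((p : ℝ) / ((p : ℝ) - 1)) := by
    apply prod_nonneg
    intro p hp
    have h3 : (3 : ℝ) ≤ p := by exact_mod_cast (mem_filter.1 hp).2
    apply div_nonneg <;> linarith
  have e2 : ((2 : ℕ) : ℝ) / (((2 : ℕ) : ℝ) - 1) = 2 := by norm_num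
  rw [e2]
  nlinarith [mul_nonneg (sub_nonneg.2 hC) (h8.trans h7)]

/-- the window `(y₁, y₂]` in the other form -/
lemma win {n y₁ y₂ : ℕ} {θ : ℝ} (hn : 1 ≤ n) (hy2 : y₂ ≤ n) (hy : (n : ℝ) ^ θ ≤ (y₂ : ℝ) - y₁) :
    y₁ < y₂ ∧ ((y₂ - y₁ : ℕ) : ℝ) = (y₂ : ℝ) - y₁ ∧ (n : ℝ) ^ θ ≤ ((y₂ - y₁ : ℕ) : ℝ) ∧
      y₁ + (y₂ - y₁) ≤ n ∧ Ioc y₁ y₂ = Ioc y₁ (y₁ + (y₂ - y₁)) := by
  have h0 : 0 < (n : ℝ) ^ θ := Real.rpow_pos_of_pos (by exact_mod_cast hn) _
  have h12 : y₁ < y₂ := by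
    have : (y₁ : ℝ) < y₂ := by linarith
    exact_mod_cast this
  refine ⟨h12, by rw [Nat.cast_sub h12.le], by rw [Nat.cast_sub h12.le]; exact hy, by omega, ?_⟩
  congr 1
  omega

theorem up (k : ℕ) (hk : 1 ≤ k) (θ : ℝ) (hθ : 0 < θ) : ∃ C : ℝ, 0 < C ∧ ∃ B n₀ : ℕ, ∀ n : ℕ, n₀ ≤ n → 2 ∣ n →
    ∀ y₁ y₂ D : ℕ, y₂ ≤ n → (n : ℝ) ^ θ ≤ (y₂ : ℝ) - y₁ → Real.log n ^ B ≤ D →
      ∀ S ⊆ P n y₁ y₂, (AP k D S : ℝ) ≤ C * E k n y₁ y₂ D := by
  obtain ⟨C, hC, B, n₀, h⟩ := Pool.Agent.Y843.AC.rep_up k 1 hk le_rfl hθ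
  refine ⟨C, hC, B, max n₀ 1, fun n hn h2 y₁ y₂ D hy2 hy hD S hS => ?_⟩
  obtain ⟨w1, w2, w3, w4, w5⟩ := win ((le_max_right _ _).trans hn) hy2 hy
  have h1 := h n ((le_max_left _ _).trans hn) (even_iff_two_dvd.2 h2) y₁ (y₂ - y₁) D w3 w4 hD S
    (fun p hp => by rw [← w5]; exact (mem_filter.1 (hS hp)).1)
    (fun p hp => Or.inl (mem_filter.1 (hS hp)).2)
  rw [w2] at h1
  exact h1

theorem dn (k : ℕ) (hk : 1 ≤ k) (θ δ : ℝ) (hθ : 0 < θ) (hδ : 0 < δ) : ∃ c : ℝ, 0 < c ∧ ∃ B n₀ : ℕ, ∀ n : ℕ,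
    n₀ ≤ n → 2 ∣ n → ∀ y₁ y₂ D : ℕ, y₂ ≤ n → (n : ℝ) ^ θ ≤ (y₂ : ℝ) - y₁ → Real.log n ^ B ≤ D →
      (D : ℝ) ≤ (y₂ : ℝ) - y₁ → ∀ S ⊆ P n y₁ y₂,
      (δ * (((y₂ : ℝ) - y₁) * dens n) ≤ S.card → c * E k n y₁ y₂ D ≤ AP k D S) ∧
      (δ * E k n y₁ y₂ D ≤ AP k D S → c * (((y₂ : ℝ) - y₁) * dens n) ≤ S.card) := by
  obtain ⟨c, hc, B, n₀, h⟩ := Pool.Agent.Y843.AC.rep_dn k 1 hk le_rfl hθ hδ
  refine ⟨c, hc, B, max n₀ 1, fun n hn h2 y₁ y₂ D hy2 hy hD hDy S hS => ?_⟩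
  obtain ⟨w1, w2, w3, w4, w5⟩ := win ((le_max_right _ _).trans hn) hy2 hy
  have h1 := h n ((le_max_left _ _).trans hn) (even_iff_two_dvd.2 h2) y₁ (y₂ - y₁) D w3 w4 hD
    (by rw [← w2] at hDy; exact_mod_cast hDy) S
    (fun p hp => by rw [← w5]; exact (mem_filter.1 (hS hp)).1)
    (fun p hp => Or.inl (mem_filter.1 (hS hp)).2)
  rw [w2] at h1
  exact h1

theorem iso (k : ℕ) (hk : 1 ≤ k) (θ ε : ℝ) (hθ : 0 < θ) (hε : 0 < ε) : ∃ B n₀ : ℕ, ∀ n : ℕ, n₀ ≤ n → 2 ∣ n →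
    ∀ y₁ y₂ : ℕ, y₂ ≤ n → (n : ℝ) ^ θ ≤ (y₂ : ℝ) - y₁ → ∀ S ⊆ P n y₁ y₂,
      ((outside k (Real.log n ^ B) S).card : ℝ) ≤ ε * (((y₂ : ℝ) - y₁) * dens n) := by
  obtain ⟨B, n₀, h⟩ := Pool.Agent.Y843.HG.gold_primes hk hθ hε
  refine ⟨B, max n₀ 1, fun n hn h2 y₁ y₂ hy2 hy S hS => ?_⟩
  obtain ⟨w1, w2, w3, w4, w5⟩ := win ((le_max_right _ _).trans hn) hy2 hy
  have h1 := h n ((le_max_left _ _).trans hn) (even_iff_two_dvd.2 h2) y₁ (y₂ - y₁) w3 w4 S
    (fun p hp => by rw [← w5]; exact (mem_filter.1 (hS hp)).1)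
    (fun p hp => (mem_filter.1 (hS hp)).2)
  rw [w2] at h1
  exact h1

/-- windows of the length `n / log ^ A n` are longer than `√n`, and `log n ≥ 1` -/
lemma half (A : ℕ) : ∃ n₀ : ℕ, ∀ n : ℕ, n₀ ≤ n → 3 ≤ n ∧ 1 ≤ Real.log n ∧
    (n : ℝ) ^ (1 / 2 : ℝ) ≤ (n : ℝ) / Real.log n ^ A := by
  obtain ⟨x₀, h⟩ := Filter.eventually_atTop.1
    (Pool.Agent.R460.GS.real_log A (s := 1 / 2) (by norm_num) 1)
  refine ⟨max ⌈x₀⌉₊ 3, fun n hn => ?_⟩
  have hn3 : 3 ≤ n := (le_max_right _ _).trans hn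
  obtain ⟨h1, h2⟩ := h n ((Nat.le_ceil _).trans (by exact_mod_cast (le_max_left _ _).trans hn))
  refine ⟨hn3, h1, ?_⟩
  have h0 : 0 < Real.log n ^ A := by positivity
  have hn0 : (0 : ℝ) < n := by exact_mod_cast (show 0 < n by omega)
  rw [le_div_iff₀ h0]
  calc (n : ℝ) ^ (1 / 2 : ℝ) * Real.log n ^ A ≤ (n : ℝ) ^ (1 / 2 : ℝ) * (n : ℝ) ^ (1 / 2 : ℝ) :=
        mul_le_mul_of_nonneg_left h2 (by positivity)
    _ = n := by
        rw [← Real.rpow_add hn0]
        norm_num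

lemma outside_anti (k : ℕ) {D D' : ℝ} (h : D ≤ D') (S : Finset ℕ) : outside k D' S ⊆ outside k D S :=
  Pool.Agent.Y843.HG.Iso_anti h S

/-- from the windows to the progressions -/
theorem main (k : ℕ) (hk : 1 ≤ k) : ∃ c C : ℝ, 0 < c ∧ 0 < C ∧ ∃ B : ℕ, ∀ δ : ℝ, 0 < δ →
    ∃ c' : ℝ, 0 < c' ∧ ∃ B' : ℕ, ∀ A : ℕ, ∃ n₀ : ℕ, ∀ n : ℕ, n₀ ≤ n → 2 ∣ n →
      Pool.Agent.R460.GS.WinL A n → Right k B c C A n ∧ Dense k B' δ c' A n := by
  obtain ⟨C, hC, B₁, n₁, h1⟩ := up k hk (1 / 2) (by norm_num)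
  obtain ⟨c₀, hc₀, B₂, n₂, h2⟩ := dn k hk (1 / 2) (1 / 40) (by norm_num) (by norm_num)
  refine ⟨min (1 / 40) c₀, C, lt_min (by norm_num) hc₀, hC, max B₁ B₂, fun δ hδ => ?_⟩
  obtain ⟨c₃, hc₃, B₃, n₃, h3⟩ := dn k hk (1 / 2) (δ / 40) (by norm_num) (by positivity)
  obtain ⟨B₄, n₄, h4⟩ := iso k hk (1 / 2) (δ * (δ / 40)) (by norm_num) (by positivity)
  refine ⟨c₃ / C, by positivity, max B₁ (max B₃ B₄), fun A => ?_⟩
  obtain ⟨n₅, h5⟩ := half A
  refine ⟨max (max n₁ n₂) (max (max n₃ n₄) n₅), fun n hn h2n hW => ?_⟩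
  have e1 : n₁ ≤ n := (le_max_left _ _).trans ((le_max_left _ _).trans hn)
  have e2 : n₂ ≤ n := (le_max_right _ _).trans ((le_max_left _ _).trans hn)
  have e3 : n₃ ≤ n := (le_max_left _ _).trans ((le_max_left _ _).trans ((le_max_right _ _).trans hn))
  have e4 : n₄ ≤ n := (le_max_right _ _).trans ((le_max_left _ _).trans ((le_max_right _ _).trans hn))
  have e5 : n₅ ≤ n := (le_max_right _ _).trans ((le_max_right _ _).trans hn)
  obtain ⟨hn3, hl1, hwin⟩ := h5 n e5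
  have hn0 : 0 < n := by omega
  have hs := sing_low n hn0 h2n
  have hd : 0 < dens n := by
    rw [dens_eq]
    exact Pool.Agent.Y843.AC.dg_pos hn3
  -- the number of partitions in windows
  have hcard : ∀ y₁ y₂ : ℕ, y₂ ≤ n → (n : ℝ) / Real.log n ^ A ≤ (y₂ : ℝ) - y₁ →
      1 / 40 * (((y₂ : ℝ) - y₁) * dens n) ≤ (P n y₁ y₂).card := by
    intro y₁ y₂ hy2 hy
    obtain ⟨w1, -, -, -, -⟩ := win (θ := 1 / 2) (by omega) hy2 (hwin.trans hy)
    have h6 := hW y₁ y₂ w1 hy2 hy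
    refine le_trans ?_ h6
    have h7 : 0 ≤ (y₂ : ℝ) - y₁ := by
      have : (y₁ : ℝ) < y₂ := by exact_mod_cast w1
      linarith
    have hl0 : 0 < Real.log n := by linarith
    have h8 : 0 ≤ ((y₂ : ℝ) - y₁) / Real.log n ^ 2 := by positivity
    calc 1 / 40 * (((y₂ : ℝ) - y₁) * dens n)
        = 1 / 20 * (1 / 2 * ((n : ℝ) / n.totient) * (((y₂ : ℝ) - y₁) / Real.log n ^ 2)) := by
          unfold dens
          have hφ : (n.totient : ℝ) ≠ 0 := by exact_mod_cast (Nat.totient_pos.2 hn0).ne'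
          field_simp
          ring
      _ ≤ 1 / 20 * (Pool.Agent.H560R3.GB.sing n * (((y₂ : ℝ) - y₁) / Real.log n ^ 2)) := by
          apply mul_le_mul_of_nonneg_left _ (by norm_num)
          exact mul_le_mul_of_nonneg_right hs h8
      _ = 1 / 20 * (Pool.Agent.H560R3.GB.sing n * ((y₂ : ℝ) - y₁) / Real.log n ^ 2) := by ring
  constructor
  · intro y₁ y₂ hy2 hy
    have h6 := hcard y₁ y₂ hy2 hy
    obtain ⟨w1, -, -, -, -⟩ := win (θ := 1 / 2) (by omega) hy2 (hwin.trans hy)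
    have h7 : 0 ≤ (y₂ : ℝ) - y₁ := by
      have : (y₁ : ℝ) < y₂ := by exact_mod_cast w1
      linarith
    refine ⟨le_trans (mul_le_mul_of_nonneg_right (min_le_left _ _) (by positivity)) h6, ?_⟩
    intro D hD hDy
    have hE : 0 ≤ E k n y₁ y₂ D := by
      unfold E
      positivity
    refine ⟨?_, h1 n e1 h2n y₁ y₂ D hy2 (hwin.trans hy)
      ((pow_le_pow_right₀ hl1 (le_max_left _ _)).trans hD) _ (Subset.refl _)⟩
    exact (mul_le_mul_of_nonneg_right (min_le_right _ _) hE).trans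
      ((h2 n e2 h2n y₁ y₂ D hy2 (hwin.trans hy)
        ((pow_le_pow_right₀ hl1 (le_max_right _ _)).trans hD) hDy _ (Subset.refl _)).1 h6)
  · intro y₁ y₂ hy2 hy S hS hSd
    have h6 := hcard y₁ y₂ hy2 hy
    obtain ⟨w1, -, -, -, -⟩ := win (θ := 1 / 2) (by omega) hy2 (hwin.trans hy)
    have h7 : 0 ≤ (y₂ : ℝ) - y₁ := by
      have : (y₁ : ℝ) < y₂ := by exact_mod_cast w1
      linarith
    have h8 : δ / 40 * (((y₂ : ℝ) - y₁) * dens n) ≤ S.card := by
      refine le_trans ?_ hSd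
      calc δ / 40 * (((y₂ : ℝ) - y₁) * dens n) = δ * (1 / 40 * (((y₂ : ℝ) - y₁) * dens n)) := by ring
        _ ≤ _ := mul_le_mul_of_nonneg_left h6 hδ.le
    have hB4 : B₄ ≤ max B₁ (max B₃ B₄) := (le_max_right _ _).trans (le_max_right _ _)
    have hB3 : B₃ ≤ max B₁ (max B₃ B₄) := (le_max_left _ _).trans (le_max_right _ _)
    constructor
    · have h9 := h4 n e4 h2n y₁ y₂ hy2 (hwin.trans hy) S hS
      have h10 : ((outside k (Real.log n ^ max B₁ (max B₃ B₄)) S).card : ℝ) ≤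
          (outside k (Real.log n ^ B₄) S).card := by
        exact_mod_cast card_le_card (outside_anti k (pow_le_pow_right₀ hl1 hB4) S)
      refine h10.trans (h9.trans ?_)
      calc δ * (δ / 40) * (((y₂ : ℝ) - y₁) * dens n) = δ * (δ / 40 * (((y₂ : ℝ) - y₁) * dens n)) := by ring
        _ ≤ δ * S.card := mul_le_mul_of_nonneg_left h8 hδ.le
    · intro D hD hDy
      have h9 := (h3 n e3 h2n y₁ y₂ D hy2 (hwin.trans hy) ((pow_le_pow_right₀ hl1 hB3).trans hD) hDy S hS).1 h8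
      have h10 := h1 n e1 h2n y₁ y₂ D hy2 (hwin.trans hy)
        ((pow_le_pow_right₀ hl1 (le_max_left _ _)).trans hD) _ (Subset.refl (P n y₁ y₂))
      calc c₃ / C * AP k D (P n y₁ y₂) ≤ c₃ / C * (C * E k n y₁ y₂ D) :=
            mul_le_mul_of_nonneg_left h10 (by positivity)
        _ = c₃ * E k n y₁ y₂ D := by field_simp
        _ ≤ _ := h9

/-- **Szemerédi's theorem for the Goldbach partitions of almost all even numbers.** Let `k ≥ 1`.

1. There are `c, C > 0`, `B` (depending only on `k`) and, for every `δ > 0`, `c' > 0`, `B'`, such that for all `A`,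
  `U`, `T` and `ρ > 0`, all large `x`, all moduli `q ≤ x ^ (7/10 - ρ)` and all classes `a` modulo `q` with
  `gcd(a, q) ≤ log ^ T x`: all but at most `x / (q log ^ U x)` of the even `n ≤ x`, `n ≡ a` modulo `q`, have the
  following two properties. In every window `(y₁, y₂]`, `y₂ ≤ n`, `y₂ - y₁ ≥ n / log ^ A n`, the number of the
  progressions `p, p + d, …, p + (k - 1) d` with `d ≤ D` of primes in the window for which all
  `n - p, n - p - d, …, n - p - (k - 1) d` are primes is between `c` and `C` times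
  `(y₂ - y₁) D (n / (φ(n) log ^ 2 n)) ^ k`, for all `D` between `log ^ B n` and `y₂ - y₁`. And every set `S` of at
  least the proportion `δ` of the primes `p` of the window with `n - p` prime contains at least the proportion
  `c'` of these progressions (for all `D ≥ log ^ B' n`), and all its elements but the proportion `δ` are terms
  of progressions of `k` elements of `S` with differences at most `log ^ B' n`.
2. For every large even `n` without exception, every window of a length of at least `n ^ θ` and all `D` between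
  `log ^ B n` and this length, the number of the progressions is at most `C` times the expected order, and it is
  at least of the expected order if and only if the number of the partitions in the window is. -/
theorem result (k : ℕ) (hk : 1 ≤ k) :
    (∃ c C : ℝ, 0 < c ∧ 0 < C ∧ ∃ B : ℕ, ∀ δ : ℝ, 0 < δ → ∃ c' : ℝ, 0 < c' ∧ ∃ B' : ℕ,
      ∀ (A U T : ℕ) (ρ : ℝ), 0 < ρ → ∃ x₀ : ℝ, ∀ x : ℝ, x₀ ≤ x → ∀ q : ℕ, 1 ≤ q →
        (q : ℝ) ≤ x ^ (7 / 10 - ρ) → ∀ a : ℤ, (Int.gcd a q : ℝ) ≤ Real.log x ^ T →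
          (({n : ℕ | 0 < n ∧ (n : ℝ) ≤ x ∧ 2 ∣ n ∧ (n : ℤ) ≡ a [ZMOD q] ∧
            ¬ (Right k B c C A n ∧ Dense k B' δ c' A n)}.ncard : ℕ) : ℝ) ≤ x / (q * Real.log x ^ U)) ∧
    (∀ θ δ : ℝ, 0 < θ → 0 < δ → ∃ c C : ℝ, 0 < c ∧ 0 < C ∧ ∃ B n₀ : ℕ, ∀ n : ℕ, n₀ ≤ n → 2 ∣ n →
      ∀ y₁ y₂ D : ℕ, y₂ ≤ n → (n : ℝ) ^ θ ≤ (y₂ : ℝ) - y₁ → Real.log n ^ B ≤ D → (D : ℝ) ≤ (y₂ : ℝ) - y₁ →
        (AP k D (P n y₁ y₂) : ℝ) ≤ C * E k n y₁ y₂ D ∧
        (δ * (((y₂ : ℝ) - y₁) * dens n) ≤ (P n y₁ y₂).card → c * E k n y₁ y₂ D ≤ AP k D (P n y₁ y₂)) ∧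
        (δ * E k n y₁ y₂ D ≤ AP k D (P n y₁ y₂) → c * (((y₂ : ℝ) - y₁) * dens n) ≤ (P n y₁ y₂).card)) := by
  constructor
  · obtain ⟨c, C, hc, hC, B, h⟩ := main k hk
    refine ⟨c, C, hc, hC, B, fun δ hδ => ?_⟩
    obtain ⟨c', hc', B', h'⟩ := h δ hδ
    refine ⟨c', hc', B', fun A U T ρ hρ => ?_⟩
    obtain ⟨x₀, hx₀⟩ := Pool.Agent.R460.GS.class_few (fun n => Right k B c C A n ∧ Dense k B' δ c' A n) A
      (h' A) ρ hρ U T
    exact ⟨x₀, fun x hx q hq hqx a ha => (hx₀ x hx q hq hqx a ha).2⟩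
  · intro θ δ hθ hδ
    obtain ⟨C, hC, B₁, n₁, h1⟩ := up k hk θ hθ
    obtain ⟨c, hc, B₂, n₂, h2⟩ := dn k hk θ δ hθ hδ
    refine ⟨c, C, hc, hC, max B₁ B₂, max (max n₁ n₂) 3, fun n hn h2n y₁ y₂ D hy2 hy hD hDy => ?_⟩
    have e1 : n₁ ≤ n := (le_max_left _ _).trans ((le_max_left _ _).trans hn)
    have e2 : n₂ ≤ n := (le_max_right _ _).trans ((le_max_left _ _).trans hn)
    have hl1 : 1 ≤ Real.log n := by
      have h3 : (3 : ℝ) ≤ n := by exact_mod_cast (le_max_right _ _).trans hn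
      rw [Real.le_log_iff_exp_le (by linarith)]
      linarith [Real.exp_one_lt_d9]
    exact ⟨h1 n e1 h2n y₁ y₂ D hy2 hy ((pow_le_pow_right₀ hl1 (le_max_left _ _)).trans hD) _ (Subset.refl _),
      h2 n e2 h2n y₁ y₂ D hy2 hy ((pow_le_pow_right₀ hl1 (le_max_right _ _)).trans hD) hDy _ (Subset.refl _)⟩

end Pool.Agent.Results.MP_7b7e48_nt.ProgressionsOfPartitions
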