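import Pool.Agent.K4H18.TD.B11

/-!
# The Titchmarsh divisor problem over the Goldbach partitions of almost all members of a family of small energy

Definitions used (all in `Pool.Agent.H560R3.GB`): `C₂`: the twin prime constant
`∏_{p > 2} (1 - 1 / (p - 1) ^ 2)`; `sing n`: the singular series
`2 C₂ ∏_{p ∣ n, p > 2} (p - 1) / (p - 2)`; `g n`: the number of ordered representations of `n` as a
sum of two primes; `HL n = sing n * n / log ^ 2 n`: the prediction of Hardy and Littlewood for `g n`;
`energy h x s`: the number of solutions of `s (v 1) + ... + s (v h) = s (w 1) + ... + s (w h)` with all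
`v i`, `w i` in `{1, ..., x}`.
-/

set_option autoImplicit false

namespace Pool.Agent.Results.MP_7b7e48_nt.TitchmarshDivisors

open Finset Pool.Agent.H560R3.GB

/-- The sum of the numbers of the positive divisors of `|p - a|` over the ordered pairs `(p, q)` of primes with
`p + q = n` (a term with `p = a` is counted as `0`). -/
def divisorSum (a : ℤ) (n : ℕ) : ℕ :=
  ∑ v ∈ (antidiagonal n).filter (fun v : ℕ × ℕ => v.1.Prime ∧ v.2.Prime), ((v.1 : ℤ) - a).natAbs.divisors.card

/-- The local factor of the constant at the prime `q`. -/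
noncomputable def local' (a : ℤ) (n q : ℕ) : ℝ :=
  if (q : ℤ) ∣ a ∨ (q : ℤ) ∣ (n : ℤ) - a then 1 - 1 / (q : ℝ) else
    if q ∣ n then 1 + 1 / ((q : ℝ) * ((q : ℝ) - 1)) else 1 + 2 / ((q : ℝ) * ((q : ℝ) - 2))

/-- The constant: the product of the local factors over all primes `q ≤ n`. -/
noncomputable def const (a : ℤ) (n : ℕ) : ℝ := ∏ q ∈ (Icc 1 n).filter Nat.Prime, local' a n q

/-- `n` is a sum of two distinct primes, the number of its representations as a sum of two primes agrees with
the prediction of Hardy and Littlewood up to a relative error `ε`, and for all integers `a ≠ 0` with `|a| ≤ y`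
the sum of `d (|p - a|)` over these representations `n = p + q` is asymptotically `const a n` times
their number times `log n`, up to a relative error `ε`. -/
def Good (ε y : ℝ) (n : ℕ) : Prop :=
  |(g n : ℝ) - HL n| ≤ ε * HL n ∧ (∃ p q : ℕ, p.Prime ∧ q.Prime ∧ p ≠ q ∧ p + q = n) ∧
  ∀ a : ℤ, a ≠ 0 → |(a : ℝ)| ≤ y →
    |(divisorSum a n : ℝ) - const a n * g n * Real.log n| ≤ ε * (const a n * g n * Real.log n)

open Classical in
/-- The number of `m ∈ {1, ..., x}` for which `s m` is not good. -/
noncomputable def exceptions (ε y : ℝ) (x : ℕ) (s : ℕ → ℕ) : ℕ :=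
  ((Icc 1 x).filter (fun m => ¬ Good ε y (s m))).card

/-- For all `A`, all `h ≥ 1`, `B`, `C`, `U` and all `ε > 0` there is an `N₀` such that for all
`N ≥ N₀` and for every family `s 1, ..., s x` of even numbers in `[0, B N]` whose additive energy of order `h`
is at most `x ^ (2 h) log ^ C N / N`, all the members of the family but at most `x / log ^ U N` are good, for all
shifts `a` up to `log ^ A N`. -/
theorem result (A h B C U : ℕ) (hh : 1 ≤ h) (ε : ℝ) (hε : 0 < ε) :
    ∃ N₀ : ℕ, ∀ N : ℕ, N₀ ≤ N → ∀ (x : ℕ) (s : ℕ → ℕ), (∀ m ∈ Icc 1 x, s m ≤ B * N ∧ Even (s m)) →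
      (energy h x s : ℝ) * N ≤ Real.log N ^ C * (x : ℝ) ^ (2 * h) →
      (exceptions ε (Real.log N ^ A) x s : ℝ) ≤ x / Real.log N ^ U := by
  classical
  obtain ⟨N₀, hN₀⟩ := Pool.Agent.K4H18.TD.fam_tit A h B C U hh ε hε
  refine ⟨N₀, fun N hN x s hs hE => ?_⟩
  unfold exceptions
  apply hN₀ N hN x s hs hE _ (filter_subset _ _)
  intro m hm hgood
  rw [mem_filter] at hm
  apply hm.2
  obtain ⟨⟨h1, h2⟩, h3⟩ := hgood
  refine ⟨h1, h2, fun a ha haA => ?_⟩
  have h5 := h3 a ha haA
  have e : (divisorSum a (s m) : ℝ) = ∑ p ∈ Pool.Agent.K4H18.EK.Pn (s m), (Pool.Agent.K4H18.TD.tau a p : ℝ) := by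
    unfold divisorSum Pool.Agent.K4H18.EK.Pn Pool.Agent.K4H18.TD.tau
    set n := s m with hn
    rw [Nat.cast_sum]
    apply sum_bij (fun v _ => v.1)
    · intro v hv
      rw [mem_filter, HasAntidiagonal.mem_antidiagonal] at hv
      obtain ⟨g1, g2, g3⟩ := hv
      rw [mem_filter, mem_Icc]
      have e : n - v.1 = v.2 := by omega
      exact ⟨⟨g2.one_le, by omega⟩, g2, by rw [e]; exact g3⟩
    · intro v hv w hw hvw
      rw [mem_filter, HasAntidiagonal.mem_antidiagonal] at hv hw
      have := hv.1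
      have := hw.1
      ext
      · exact hvw
      · omega
    · intro p hp
      rw [mem_filter, mem_Icc] at hp
      obtain ⟨⟨g1, g2⟩, g3, g4⟩ := hp
      refine ⟨(p, n - p), ?_, rfl⟩
      rw [mem_filter, HasAntidiagonal.mem_antidiagonal]
      exact ⟨by omega, g3, g4⟩
    · intro v _
      rfl
  have e2 : const a (s m) = Pool.Agent.K4H18.TD.cT a (s m) := by
    unfold const Pool.Agent.K4H18.TD.cT local' Pool.Agent.K4H18.TD.kap
    apply prod_congr _ fun _ _ => rfl
    ext q
    rw [Pool.Agent.H373R2.T7.mem_pz, mem_filter, mem_Icc]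
    exact ⟨fun h => ⟨h.1.2, h.2⟩, fun h => ⟨⟨h.2.one_le, h.1⟩, h.2⟩⟩
  rw [e, e2]
  exact h5

end Pool.Agent.Results.MP_7b7e48_nt.TitchmarshDivisors
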